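import Pool.Agent.helper23.CU.Spec

/-! Module PC: path counting -/

open Finset Filter Topology

namespace CU

theorem PC_tri {n : ℕ} [NeZero n] (a b : ZMod n) :
    (a + b).valMinAbs.natAbs ≤ a.valMinAbs.natAbs + b.valMinAbs.natAbs :=
  (ZMod.natAbs_valMinAbs_add_le a b).trans (Int.natAbs_add_le _ _)

theorem PC_one {n : ℕ} [NeZero n] (hn : 3 ≤ n) : (1 : ZMod n).valMinAbs.natAbs ≤ 1 := by
  have h := ZMod.valMinAbs_natCast_of_le_half (n := n) (a := 1) (by omega)
  rw [Nat.cast_one] at h
  rw [h]
  rfl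

theorem PC_sq {d n : ℕ} {x : Site d n} {i j : Fin d} {e : Edge d n} (h : e ∈ sq x i j) (k : Fin d) :
    e.1 k = x k ∨ e.1 k = x k + 1 := by
  have hev : ∀ i : Fin d, (x + ev i : Site d n) k = x k ∨ (x + ev i : Site d n) k = x k + 1 := by
    intro i
    unfold ev
    rw [Pi.add_apply, Pi.single_apply]
    split_ifs
    · right; rfl
    · left; rw [add_zero]
  unfold sq at h
  simp only [Finset.mem_insert, Finset.mem_singleton] at h
  rcases h with rfl | rfl | rfl | rfl
  · left; rfl
  · left; rfl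
  · exact hev i
  · exact hev j

theorem PC_step {d n : ℕ} [NeZero n] (hn : 3 ≤ n) {e e' : Edge d n} (h : sqAdj e e') (k : Fin d) :
    (e'.1 k - e.1 k).valMinAbs.natAbs ≤ 1 := by
  obtain ⟨-, x, i, j, -, h1, h2⟩ := h
  have h0 : ((0 : ZMod n)).valMinAbs.natAbs ≤ 1 := by
    rw [ZMod.valMinAbs_zero]
    exact Nat.zero_le _
  rcases PC_sq h1 k with h3 | h3 <;> rcases PC_sq h2 k with h4 | h4
  · rw [h3, h4, sub_self]; exact h0
  · rw [h3, h4, add_sub_cancel_left]; exact PC_one hn
  · rw [h3, h4, show x k - (x k + 1) = -1 by ring, ZMod.natAbs_valMinAbs_neg]; exact PC_one hn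
  · rw [h3, h4, sub_self]; exact h0

theorem PC_walk {d n : ℕ} [NeZero n] (hn : 3 ≤ n) {σ : Conf d n} {e e' : Edge d n}
    (p : (Gr σ).Walk e e') (i : ℕ) (hi : i ≤ p.length) : Near i e.1 (p.getVert i).1 := by
  induction i with
  | zero =>
    intro k
    rw [SimpleGraph.Walk.getVert_zero, sub_self, ZMod.valMinAbs_zero]
    exact le_rfl
  | succ i ih =>
    intro k
    have h1 := ih (by omega) k
    have h2 := PC_step hn (p.adj_getVert_succ (i := i) (by omega)).1 k
    have h3 := PC_tri ((p.getVert (i + 1)).1 k - (p.getVert i).1 k) ((p.getVert i).1 k - e.1 k)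
    rw [show (p.getVert (i + 1)).1 k - (p.getVert i).1 k + ((p.getVert i).1 k - e.1 k) =
      (p.getVert (i + 1)).1 k - e.1 k by ring] at h3
    omega

open Classical in
/-- chains of square neighbours -/
noncomputable def PC_seq (d n : ℕ) [NeZero n] (r : ℕ) : Finset (Fin (r + 1) → Edge d n) :=
  univ.filter fun f => ∀ i : Fin r, sqAdj (f i.castSucc) (f i.succ)

open Classical in
theorem PC_count (hDG : DG_stmt) (d n : ℕ) [NeZero n] (r : ℕ) :
    (PC_seq d n r).card ≤ Fintype.card (Edge d n) * (6 * (d - 1)) ^ r := by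
  induction r with
  | zero =>
    rw [pow_zero, mul_one]
    refine (Finset.card_le_univ _).trans ?_
    simp
  | succ r ih =>
    have h1 : (PC_seq d n (r + 1)).card ≤ (6 * (d - 1)) *
        ((PC_seq d n (r + 1)).image fun f : Fin (r + 1 + 1) → Edge d n => fun i : Fin (r + 1) =>
          f i.castSucc).card := by
      refine Finset.card_le_mul_card_image _ _ fun b _ => ?_
      have h2 := hDG d n (b (Fin.last r)) (((PC_seq d n (r + 1)).filter fun f =>
        (fun i : Fin (r + 1) => f i.castSucc) = b).image fun f => f (Fin.last (r + 1))) ?_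
      · rwa [Finset.card_image_of_injOn] at h2
        intro f hf f' hf' hff
        rw [Finset.mem_coe, Finset.mem_filter] at hf hf'
        funext i
        refine Fin.lastCases hff (fun i => ?_) i
        exact (congrFun hf.2 i).trans (congrFun hf'.2 i).symm
      · intro e he
        rw [Finset.mem_image] at he
        obtain ⟨f, hf, rfl⟩ := he
        rw [Finset.mem_filter] at hf
        obtain ⟨hf1, hf2⟩ := hf
        unfold PC_seq at hf1
        rw [Finset.mem_filter] at hf1
        have h3 := hf1.2 (Fin.last r)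
        rw [← hf2]
        exact h3
    have h2 : ((PC_seq d n (r + 1)).image fun f : Fin (r + 1 + 1) → Edge d n =>
        fun i : Fin (r + 1) => f i.castSucc) ⊆ PC_seq d n r := by
      intro f hf
      rw [Finset.mem_image] at hf
      obtain ⟨f, hf, rfl⟩ := hf
      unfold PC_seq at hf ⊢
      rw [Finset.mem_filter] at hf ⊢
      refine ⟨Finset.mem_univ _, fun i => ?_⟩
      exact hf.2 i.castSucc
    calc (PC_seq d n (r + 1)).card ≤ (6 * (d - 1)) * (PC_seq d n r).card :=
          h1.trans (Nat.mul_le_mul_left _ (Finset.card_le_card h2))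
      _ ≤ (6 * (d - 1)) * (Fintype.card (Edge d n) * (6 * (d - 1)) ^ r) :=
          Nat.mul_le_mul_left _ ih
      _ = Fintype.card (Edge d n) * (6 * (d - 1)) ^ (r + 1) := by rw [pow_succ]; ring

theorem PC_union {d n : ℕ} [NeZero n] (β : ℝ) {ι : Type} (T : Finset ι) (S : Set (Conf d n))
    (A : ι → Set (Conf d n)) (h : ∀ σ ∈ S, ∃ i ∈ T, σ ∈ A i) :
    PrE β S ≤ ∑ i ∈ T, PrE β (A i) := by
  unfold PrE Ex
  have hW : ∀ σ : Conf d n, 0 ≤ W β σ := fun σ => (Real.exp_pos _).le
  rw [← Finset.sum_div, Finset.sum_comm]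
  refine div_le_div_of_nonneg_right ?_ (Finset.sum_nonneg fun σ _ => hW σ)
  refine Finset.sum_le_sum fun σ _ => ?_
  rw [← Finset.mul_sum]
  refine mul_le_mul_of_nonneg_left ?_ (hW σ)
  by_cases hσ : σ ∈ S
  · obtain ⟨i, hi, hi'⟩ := h σ hσ
    rw [Set.indicator_of_mem hσ]
    calc (1 : ℝ) = (A i).indicator (fun _ => 1) σ := by rw [Set.indicator_of_mem hi']
      _ ≤ ∑ i ∈ T, (A i).indicator (fun _ => (1 : ℝ)) σ :=
          Finset.single_le_sum (f := fun i => (A i).indicator (fun _ => (1 : ℝ)) σ)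
            (fun i _ => Set.indicator_nonneg (fun _ _ => zero_le_one) σ) hi
  · rw [Set.indicator_of_notMem hσ]
    exact Finset.sum_nonneg fun i _ => Set.indicator_nonneg (fun _ _ => zero_le_one) σ

open Classical in
theorem PC (hDG : DG_stmt) (hPB : PB_stmt) : PC_stmt := by
  intro d n r _ hn β hβ
  set ρ : ℝ := 2 * Real.exp (-2 * β) / (1 + Real.exp (-2 * β)) with hρ
  have hρ0 : 0 ≤ ρ := by positivity
  let T : Finset (Fin (r + 1) → Edge d n) := (PC_seq d n r).filter Function.Injective
  have h1 : PrE β {σ : Conf d n | ¬ Good r σ} ≤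
      ∑ f ∈ T, PrE β {σ : Conf d n | univ.image f ⊆ brk σ} := by
    refine PC_union β T _ _ fun σ hσ => ?_
    simp only [Set.mem_ofPred_eq, Good, not_forall] at hσ
    obtain ⟨e, he, e', hr, hN⟩ := hσ
    obtain ⟨p, hp⟩ := hr.exists_isPath
    have hlen : r < p.length := by
      by_contra hc
      apply hN
      intro k
      have h2 := PC_walk hn p p.length le_rfl k
      rw [SimpleGraph.Walk.getVert_length] at h2
      omega
    refine ⟨fun i => p.getVert i, ?_, ?_⟩
    · rw [Finset.mem_filter]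
      constructor
      · unfold PC_seq
        rw [Finset.mem_filter]
        refine ⟨Finset.mem_univ _, fun i => ?_⟩
        have h3 : (i : ℕ) < p.length := by have := i.2; omega
        exact (p.adj_getVert_succ h3).1
      · intro i j hij
        have h3 := hp.getVert_injOn (show (i : ℕ) ∈ {i | i ≤ p.length} by
          simp only [Set.mem_ofPred_eq]; have := i.2; omega) (show (j : ℕ) ∈ {i | i ≤ p.length} by
          simp only [Set.mem_ofPred_eq]; have := j.2; omega) hij
        exact Fin.ext h3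
    · show univ.image _ ⊆ brk σ
      intro a ha
      rw [Finset.mem_image] at ha
      obtain ⟨i, -, rfl⟩ := ha
      have h3 : (i : ℕ) < p.length := by have := i.2; omega
      exact (p.adj_getVert_succ h3).2.1
  refine h1.trans ?_
  have h2 : ∀ f ∈ T, PrE β {σ : Conf d n | univ.image f ⊆ brk σ} ≤ ρ ^ (r + 1) := by
    intro f hf
    rw [Finset.mem_filter] at hf
    have h3 := hPB d n β hβ (univ.image f)
    rw [Finset.card_image_of_injective _ hf.2, Finset.card_univ, Fintype.card_fin] at h3
    exact h3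
  refine (Finset.sum_le_card_nsmul T _ _ h2).trans ?_
  rw [nsmul_eq_mul]
  refine mul_le_mul_of_nonneg_right ?_ (pow_nonneg hρ0 _)
  have h3 : T.card ≤ Fintype.card (Edge d n) * (6 * (d - 1)) ^ r :=
    (Finset.card_filter_le _ _).trans (PC_count hDG d n r)
  calc (T.card : ℝ) ≤ ((Fintype.card (Edge d n) * (6 * (d - 1)) ^ r : ℕ) : ℝ) := by exact_mod_cast h3
    _ = (Fintype.card (Edge d n) : ℝ) * (6 * ((d - 1 : ℕ) : ℝ)) ^ r := by push_cast; ring

end CU
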